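import Pool.Agent.Helper83.RK2.ThyDef

/-!
# From vanishing iterated differences to divisibility by `p`
-/

set_option autoImplicit false

namespace Pool.Agent.Helper83.RK2

namespace h93

variable {A ι : Type} [AddCommGroup A]

theorem Dl_trans (v : ι → A) (l : List ι) (ψ : A → ℤ) (c a : A) :
    Dl v l (fun b => ψ (b + c)) a = Dl v l ψ (a + c) := by
  induction l generalizing ψ with
  | nil => rfl
  | cons i l ih =>
    show Dl v l (fun b => ψ (b + c) - ψ (b + v i + c)) a =
      Dl v l (fun b => ψ b - ψ (b + v i)) (a + c)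
    rw [← ih (fun b => ψ b - ψ (b + v i))]
    congr 1
    funext b
    rw [add_right_comm]

theorem Dl_sub (v : ι → A) (l : List ι) (ψ φ : A → ℤ) (a : A) :
    Dl v l (fun b => ψ b - φ b) a = Dl v l ψ a - Dl v l φ a := by
  induction l generalizing ψ φ with
  | nil => rfl
  | cons i l ih =>
    show Dl v l (fun b => (ψ b - φ b) - (ψ (b + v i) - φ (b + v i))) a =
      Dl v l (fun b => ψ b - ψ (b + v i)) a - Dl v l (fun b => φ b - φ (b + v i)) a
    rw [← ih]
    congr 1
    funext b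
    ring

theorem Dl_add (v : ι → A) (l : List ι) (ψ φ : A → ℤ) (a : A) :
    Dl v l (fun b => ψ b + φ b) a = Dl v l ψ a + Dl v l φ a := by
  induction l generalizing ψ φ with
  | nil => rfl
  | cons i l ih =>
    show Dl v l (fun b => (ψ b + φ b) - (ψ (b + v i) + φ (b + v i))) a =
      Dl v l (fun b => ψ b - ψ (b + v i)) a + Dl v l (fun b => φ b - φ (b + v i)) a
    rw [← ih]
    congr 1
    funext b
    ring

theorem Dl_zero (v : ι → A) (l : List ι) (a : A) : Dl v l (fun _ => 0) a = 0 := by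
  induction l with
  | nil => rfl
  | cons i l ih =>
    show Dl v l (fun _ => 0 - 0) a = 0
    simpa using ih

theorem Dl_sum {κ : Type} (s : Finset κ) (v : ι → A) (l : List ι) (ψ : κ → A → ℤ) (a : A) :
    Dl v l (fun b => ∑ t ∈ s, ψ t b) a = ∑ t ∈ s, Dl v l (ψ t) a := by
  classical
  induction s using Finset.induction_on with
  | empty => simpa using Dl_zero v l a
  | insert t s ht ih =>
    rw [Finset.sum_insert ht, ← ih, ← Dl_add]
    congr 1
    funext b
    rw [Finset.sum_insert ht]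

theorem Dl_map {κ : Type} (v : ι → A) (f : κ → ι) (l : List κ) (ψ : A → ℤ) (a : A) :
    Dl v (l.map f) ψ a = Dl (v ∘ f) l ψ a := by
  induction l generalizing ψ with
  | nil => rfl
  | cons i l ih => exact ih _

/-- the sum of the translates by `0, c, ..., (p-1) c` -/
theorem dvd_sum_translates {p : ℕ} [NeZero p] (v : ι → A) (l : List ι) (ψ : A → ℤ) (c : A)
    (h : ∀ a, (p : ℤ) ∣ Dl v l (fun b => ψ b - ψ (b + c)) a) (a : A) :
    (p : ℤ) ∣ Dl v l (fun b => ∑ s : ZMod p, ψ (b + s.val • c)) a := by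
  rw [Dl_sum]
  have h1 : ∀ b, (p : ℤ) ∣ Dl v l ψ b - Dl v l ψ (b + c) := by
    intro b
    rw [← Dl_trans, ← Dl_sub]
    exact h b
  have h2 : ∀ (m : ℕ) (b : A), (p : ℤ) ∣ Dl v l ψ b - Dl v l ψ (b + m • c) := by
    intro m b
    induction m with
    | zero => simp
    | succ m ih =>
      have h3 := dvd_add ih (h1 (b + m • c))
      have h4 : b + m • c + c = b + (m + 1) • c := by rw [add_smul, one_smul, add_assoc]
      rw [h4] at h3
      have h5 : Dl v l ψ b - Dl v l ψ (b + m • c) + (Dl v l ψ (b + m • c) -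
        Dl v l ψ (b + (m + 1) • c)) = Dl v l ψ b - Dl v l ψ (b + (m + 1) • c) := by ring
      rwa [h5] at h3
  have h3 : (p : ℤ) ∣ ∑ s : ZMod p, (Dl v l ψ a - Dl v l (fun b => ψ (b + s.val • c)) a) := by
    refine Finset.dvd_sum fun s _ => ?_
    rw [Dl_trans]
    exact h2 s.val a
  rw [Finset.sum_sub_distrib, Finset.sum_const, Finset.card_univ, ZMod.card, nsmul_eq_mul] at h3
  have h4 := dvd_sub (Dvd.intro (Dl v l ψ a) rfl : (p : ℤ) ∣ p * Dl v l ψ a) h3
  have h5 : (p : ℤ) * Dl v l ψ a - (p * Dl v l ψ a -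
    ∑ s : ZMod p, Dl v l (fun b => ψ (b + s.val • c)) a) =
      ∑ s : ZMod p, Dl v l (fun b => ψ (b + s.val • c)) a := by ring
  rwa [h5] at h4

theorem comb_aux {p : ℕ} [NeZero p] (r : ℕ) (v : Fin r → A) (ψ : A → ℤ)
    (h : ∀ a, (p : ℤ) ∣ Dl v (List.finRange r) ψ a) :
    (p : ℤ) ∣ ∑ t : Fin r → ZMod p, ψ (∑ i, (t i).val • v i) := by
  induction r generalizing ψ with
  | zero =>
    have h1 := h 0
    rw [Fintype.sum_unique]
    simpa [List.finRange_zero, Dl] using h1
  | succ r ih =>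
    have h1 : ∑ t : Fin (r + 1) → ZMod p, ψ (∑ i, (t i).val • v i) =
        ∑ t : Fin r → ZMod p, ∑ s : ZMod p,
          ψ (∑ i, (t i).val • (v ∘ Fin.succ) i + s.val • v 0) := by
      rw [Finset.sum_comm, ← (Fin.consEquiv fun _ => ZMod p).sum_comp, Fintype.sum_prod_type]
      refine Finset.sum_congr rfl fun s _ => Finset.sum_congr rfl fun t _ => ?_
      congr 1
      rw [Fin.sum_univ_succ, add_comm]
      simp [Fin.consEquiv]
    rw [h1]
    refine ih (v ∘ Fin.succ) (fun b => ∑ s : ZMod p, ψ (b + s.val • v 0)) fun a => ?_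
    refine dvd_sum_translates (v ∘ Fin.succ) (List.finRange r) ψ (v 0) (fun b => ?_) a
    have h2 := h b
    rw [List.finRange_succ] at h2
    have h3 : Dl v (0 :: (List.finRange r).map Fin.succ) ψ b =
      Dl v ((List.finRange r).map Fin.succ) (fun b => ψ b - ψ (b + v 0)) b := rfl
    rwa [h3, Dl_map] at h2

end h93

theorem comb {A : Type} [AddCommGroup A] {p r : ℕ} [NeZero p] (v : Fin r → A) (ψ : A → ℤ)
    (h : ∀ a, Dl v (List.finRange r) ψ a = 0) :
    (p : ℤ) ∣ ∑ t : Fin r → ZMod p, ψ (∑ i, (t i).val • v i) :=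
  h93.comb_aux r v ψ fun a => by rw [h a]; exact dvd_zero _

end Pool.Agent.Helper83.RK2
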